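import Pool.Agent.H70.LR.Reduce
import Pool.Agent.H30.WK.Pts
import Pool.Agent.H65.LN.Line

/-!
# [H9 LR Ind]  from quotient families to all families (induction on `j`) and to points
-/

set_option linter.unusedSectionVars false

open Module Submodule H15 H30.DV H81.WK H81.LR

namespace H9.LR

/-- there is no quotient family with `k = κ + f ≥ C (j + 1)`. -/
def Core (C : ℕ) : Prop :=
  ∀ (j κ f s : ℕ) (ι : Type) [Fintype ι] (E : Type) [AddCommGroup E] [Module ℝ E]
    [FiniteDimensional ℝ E] (w : ι → E), TFam w j κ f s → C * (j + 1) ≤ κ + f → False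

/-- simple spanning families without coloops. -/
theorem simple_not_bdd {C : ℕ} (core : Core C) {j k : ℕ} (hk : C * (j + 1) ≤ k) (hj : 1 ≤ j)
    {ι : Type} [Fintype ι] {E : Type} [AddCommGroup E] [Module ℝ E] [FiniteDimensional ℝ E]
    {v : ι → E} (hF : Fam v j k 0 k) (h0 : ∀ i, v i ≠ 0)
    (hnp : ∀ G : Submodule ℝ E, finrank ℝ G ≤ 1 → {i | v i ∈ G}.ncard ≤ 1) : ¬ Bdd v k := by
  classical
  intro hb
  obtain ⟨F, s, hFk, hT⟩ := H70.LR.exists_tfam hF hj h0 hnp hb
  exact core _ _ _ _ _ _ _ hT (by omega)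

/-- general family: spanning and coloops by induction on `j`. -/
theorem good_not_bdd {C : ℕ} (hC : 2 ≤ C) (core : Core C) : ∀ j k : ℕ, C * (j + 1) ≤ k →
    ∀ (ι : Type) [Fintype ι] (E : Type) [AddCommGroup E] [Module ℝ E] [FiniteDimensional ℝ E]
      (v : ι → E), Good k v → finrank ℝ E ≤ k + j + 1 → 3 * k + j ≤ Fintype.card ι → ¬ Bdd v k := by
  intro j
  induction j with
  | zero =>
    intro k hk ι _ E _ _ _ v hv hE hc _
    have h1 := hv.fc ⊤ (by rw [finrank_top]; omega)
    have h2 : {i | v i ∈ (⊤ : Submodule ℝ E)} = Set.univ := by ext i; simp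
    rw [h2, Set.ncard_univ, Nat.card_eq_fintype_card, finrank_top] at h1
    omega
  | succ j ih =>
    intro k hk
    have hk' : C * (j + 1) ≤ k := le_trans (Nat.mul_le_mul_left _ (by omega)) hk
    have IH := ih k hk'
    have key : ∀ (ι : Type) [Fintype ι] (E : Type) [AddCommGroup E] [Module ℝ E]
        [FiniteDimensional ℝ E] (v : ι → E), Good k v → finrank ℝ E ≤ k + (j + 1) + 1 →
        Fintype.card ι = 3 * k + (j + 1) → ¬ Bdd v k := by
      intro ι _ E _ _ _ v hv hE hc hb
      by_cases hE' : finrank ℝ E ≤ k + j + 1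
      · exact IH ι E v hv hE' (by omega) hb
      by_cases hcl : ∀ i, sp v ({i}ᶜ) = ⊤
      · exact simple_not_bdd core hk (by omega)
          ⟨by omega, by omega, hcl, fun H hH => hv.fc H hH⟩ hv.ne_zero hv.np hb
      · push Not at hcl
        obtain ⟨i, hi⟩ := hcl
        classical
        have hmem : ∀ l ∈ ({i}ᶜ : Set ι), v l ∈ sp v ({i}ᶜ) := fun l hl => mem_sp hl
        have h1 := Submodule.finrank_lt (lt_top_iff_ne_top.2 hi).ne
        have h2 : Fintype.card ({i}ᶜ : Set ι) = 3 * k + j := by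
          have h5 := Set.ncard_add_ncard_compl ({i} : Set ι)
          rw [Nat.card_eq_fintype_card, Set.ncard_singleton, hc] at h5
          rw [← Nat.card_eq_fintype_card]
          have : Nat.card ({i}ᶜ : Set ι) = ({i}ᶜ : Set ι).ncard := rfl
          omega
        exact IH _ _ _ (hv.sub hmem) (by omega) (by omega) (bdd_sub hb hmem)
    intro ι _ E _ _ _ v hv hE hc hb
    classical
    obtain ⟨J, -, hJ⟩ := Set.exists_subset_card_eq (s := (Set.univ : Set ι))
      (n := 3 * k + (j + 1)) (by rw [Set.ncard_univ, Nat.card_eq_fintype_card]; exact hc)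
    have hmem : ∀ l ∈ J, v l ∈ sp v J := fun l hl => mem_sp hl
    have h1 := Submodule.finrank_le (sp v J)
    have h2 : Fintype.card J = 3 * k + (j + 1) := by
      rw [← Nat.card_eq_fintype_card]
      exact hJ
    exact key _ _ _ (hv.sub hmem) (by omega) h2 (bdd_sub hb hmem)

/-- points: the exact value of `n(k, d)`. -/
theorem isLeast_of_core {C : ℕ} (hC : 3 ≤ C) (core : Core C) (k d : ℕ) (hd : k + 2 ≤ d)
    (h : C * (d - k + 1) ≤ k) :
    IsLeast {N : ℕ | ∀ S : Finset (EuclideanSpace ℝ (Fin d)), N ≤ S.card →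
      FlatCondition k S → Divisible k S} (d + 2 * k) := by
  obtain ⟨j, rfl⟩ := Nat.exists_eq_add_of_le (show k ≤ d by omega)
  rw [Nat.add_sub_cancel_left] at h
  have hk3 : 3 ≤ k := by
    have h5 : C * 1 ≤ C * (j + 1) := Nat.mul_le_mul_left _ (by omega)
    omega
  have h1 : nDiv k (k + j) ≤ k + j + 2 * k :=
    Nat.sInf_le fun S hcard hS => H30.WK.divisible_pts (by omega)
      (good_not_bdd (by omega) core j k h) S hS (by omega)
  have h2 := H65.LN.bound_line (k := k) (d := k + j) hk3 hd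
  have h3 : nDiv k (k + j) = k + j + 2 * k := le_antisymm h1 (by omega)
  have h4 := nDiv_isLeast (k := k) (d := k + j) (by omega)
  rwa [h3] at h4

end H9.LR
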